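import Mathlib
import Pool.Agent.Helper26.AF.Goals3

/-!
Project AF (MP_af6c86_pr), packet EEB: the constant `1/2`.
-/

namespace Pool.Agent.Helper28.AF

open Finset Pool.Agent.Helper26.AF

/-- `n! ≤ e n (n/e)^n` for `n ≥ 1`. -/
theorem fact_upper : ∀ n : ℕ, 1 ≤ n →
    (n.factorial : ℝ) ≤ Real.exp 1 * n * ((n : ℝ) ^ n * Real.exp (-(n : ℝ))) := by
  intro n hn
  induction n, hn using Nat.le_induction with
  | base =>
    simp only [Nat.factorial_one, Nat.cast_one, mul_one, pow_one, one_mul]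
    rw [← Real.exp_add]
    norm_num
  | succ n hn ih =>
    have hn0 : (0 : ℝ) < n := by exact_mod_cast hn
    have hn1 : (0 : ℝ) < (n : ℝ) + 1 := by positivity
    have h1 : (1 - 1 / ((n + 1 : ℕ) : ℝ)) ^ (n + 1) ≤ Real.exp (-1) :=
      Real.one_sub_div_pow_le_exp_neg (by push_cast; linarith)
    have h2 : (1 - 1 / ((n + 1 : ℕ) : ℝ)) = n / ((n : ℝ) + 1) := by
      push_cast
      field_simp
      ring
    rw [h2, div_pow, div_le_iff₀ (by positivity)] at h1
    have h3 : Real.exp (-((n + 1 : ℕ) : ℝ)) = Real.exp (-1) * Real.exp (-(n : ℝ)) := by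
      rw [← Real.exp_add]
      congr 1
      push_cast
      ring
    rw [Nat.factorial_succ, h3]
    push_cast
    have hE : 0 < Real.exp (-(n : ℝ)) := Real.exp_pos _
    have hE1 : 0 < Real.exp 1 := Real.exp_pos _
    calc ((n : ℝ) + 1) * (n.factorial : ℝ)
        ≤ ((n : ℝ) + 1) * (Real.exp 1 * n * ((n : ℝ) ^ n * Real.exp (-(n : ℝ)))) :=
          mul_le_mul_of_nonneg_left ih hn1.le
      _ = Real.exp 1 * ((n : ℝ) + 1) * ((n : ℝ) ^ (n + 1) * Real.exp (-(n : ℝ))) := by
          rw [pow_succ]; ring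
      _ ≤ Real.exp 1 * ((n : ℝ) + 1) *
            ((Real.exp (-1) * ((n : ℝ) + 1) ^ (n + 1)) * Real.exp (-(n : ℝ))) := by
          gcongr
      _ = Real.exp 1 * ((n : ℝ) + 1) *
            (((n : ℝ) + 1) ^ (n + 1) * (Real.exp (-1) * Real.exp (-(n : ℝ)))) := by ring

theorem fact_lower (n : ℕ) : (n : ℝ) ^ n * Real.exp (-(n : ℝ)) ≤ (n.factorial : ℝ) := by
  have h := Real.pow_div_factorial_le_exp (n : ℝ) (Nat.cast_nonneg n) n
  rw [div_le_iff₀ (by positivity)] at h
  calc (n : ℝ) ^ n * Real.exp (-(n : ℝ))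
      ≤ (Real.exp n * (n.factorial : ℝ)) * Real.exp (-(n : ℝ)) :=
        mul_le_mul_of_nonneg_right h (Real.exp_pos _).le
    _ = (Real.exp n * Real.exp (-(n : ℝ))) * (n.factorial : ℝ) := by ring
    _ = (n.factorial : ℝ) := by rw [← Real.exp_add, add_neg_cancel, Real.exp_zero, one_mul]

theorem dfac (r : ℕ) (hr : 1 ≤ r) :
    (Nat.doubleFactorial (6 * r - 1) : ℝ) / ((3 * r - 1).factorial : ℝ) =
      3 * r * (Nat.centralBinom (3 * r) : ℝ) / 8 ^ r := by
  have h1 : (6 * r).factorial = (2 ^ (3 * r) * (3 * r).factorial) *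
      Nat.doubleFactorial (6 * r - 1) := by
    have h3 : 6 * r = (6 * r - 1) + 1 := by omega
    conv_lhs => rw [h3, Nat.factorial_eq_mul_doubleFactorial, ← h3]
    rw [show 6 * r = 2 * (3 * r) by ring, Nat.doubleFactorial_two_mul]
  have h2 : Nat.centralBinom (3 * r) * (3 * r).factorial * (3 * r).factorial =
      (6 * r).factorial := by
    have := Nat.choose_mul_factorial_mul_factorial (n := 2 * (3 * r)) (k := 3 * r) (by omega)
    rw [show 2 * (3 * r) - 3 * r = 3 * r by omega] at this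
    rw [Nat.centralBinom_eq_two_mul_choose, this]
    congr 1
    ring
  have h4 : (3 * r).factorial = (3 * r) * (3 * r - 1).factorial := by
    have h3 : 3 * r = (3 * r - 1) + 1 := by omega
    conv_lhs => rw [h3, Nat.factorial_succ, ← h3]
  have h5 : Nat.centralBinom (3 * r) * (3 * r).factorial =
      2 ^ (3 * r) * Nat.doubleFactorial (6 * r - 1) := by
    have h6 : (3 * r).factorial * (Nat.centralBinom (3 * r) * (3 * r).factorial) =
        (3 * r).factorial * (2 ^ (3 * r) * Nat.doubleFactorial (6 * r - 1)) := by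
      calc (3 * r).factorial * (Nat.centralBinom (3 * r) * (3 * r).factorial)
          = Nat.centralBinom (3 * r) * (3 * r).factorial * (3 * r).factorial := by ring
        _ = (6 * r).factorial := h2
        _ = (2 ^ (3 * r) * (3 * r).factorial) * Nat.doubleFactorial (6 * r - 1) := h1
        _ = _ := by ring
    exact Nat.eq_of_mul_eq_mul_left (Nat.factorial_pos _) h6
  have h7 : (Nat.centralBinom (3 * r) : ℝ) * (3 * r * ((3 * r - 1).factorial : ℝ)) =
      8 ^ r * (Nat.doubleFactorial (6 * r - 1) : ℝ) := by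
    have h8 : ((Nat.centralBinom (3 * r) * (3 * r).factorial : ℕ) : ℝ) =
      ((2 ^ (3 * r) * Nat.doubleFactorial (6 * r - 1) : ℕ) : ℝ) := by rw [h5]
    rw [h4] at h8
    push_cast at h8
    rw [h8, pow_mul]
    norm_num
  have hf : ((3 * r - 1).factorial : ℝ) ≠ 0 := by positivity
  rw [div_eq_div_iff hf (by positivity)]
  linear_combination -h7

theorem goalEEB : StmtEEB := by
  intro r hr
  have hr0 : (0 : ℝ) < r := by exact_mod_cast hr
  have hkey : ee r / ((3 * r - 1).factorial : ℝ) * (3 * (r : ℝ)) ^ (2 * r) *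
      Real.exp (-(2 * (r : ℝ))) = 3 * r * (Nat.centralBinom (3 * r) : ℝ) / 128 ^ r *
      ((((2 * r : ℕ) : ℝ) ^ (2 * r) * Real.exp (-((2 * r : ℕ) : ℝ))) /
        ((2 * r).factorial : ℝ)) := by
    have h1 := dfac r hr
    have hf : ((3 * r - 1).factorial : ℝ) ≠ 0 := by positivity
    have hg : ((2 * r).factorial : ℝ) ≠ 0 := by positivity
    have h2 : ee r / ((3 * r - 1).factorial : ℝ) =
        (3 * r * (Nat.centralBinom (3 * r) : ℝ) / 8 ^ r) / (((2 * r).factorial : ℝ) * 36 ^ r) := by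
      rw [← h1]
      unfold ee
      rw [div_div, div_div, mul_comm (((2 * r).factorial : ℝ) * 36 ^ r)]
    have h3 : (3 * (r : ℝ)) ^ (2 * r) = (9 / 4 : ℝ) ^ r * ((2 * r : ℕ) : ℝ) ^ (2 * r) := by
      push_cast
      rw [mul_pow, mul_pow, pow_mul, pow_mul 2 2 r, div_pow]
      norm_num
      field_simp
    have h4 : (128 : ℝ) ^ r * (9 / 4) ^ r = 8 ^ r * 36 ^ r := by
      rw [← mul_pow, ← mul_pow]
      norm_num
    have h5 : Real.exp (-(2 * (r : ℝ))) = Real.exp (-((2 * r : ℕ) : ℝ)) := by push_cast; rfl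
    rw [h2, h3, h5]
    rw [div_div, div_mul_eq_mul_div, div_mul_eq_mul_div, div_mul_div_comm,
      div_eq_div_iff (by positivity) (by positivity)]
    linear_combination (3 * (r : ℝ) * (Nat.centralBinom (3 * r) : ℝ) *
      ((2 * r : ℕ) : ℝ) ^ (2 * r) * Real.exp (-((2 * r : ℕ) : ℝ)) * ((2 * r).factorial : ℝ)) * h4
  have hC1 : (Nat.centralBinom (3 * r) : ℝ) ≤ 64 ^ r := by
    have h1 : Nat.centralBinom (3 * r) ≤ 2 ^ (2 * (3 * r)) := by
      rw [Nat.centralBinom_eq_two_mul_choose]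
      exact Nat.choose_le_two_pow _ _
    have h2 : (2 : ℕ) ^ (2 * (3 * r)) = 64 ^ r := by
      rw [show 2 * (3 * r) = 6 * r by ring, pow_mul]
      norm_num
    rw [h2] at h1
    exact_mod_cast h1
  have hC2 : (64 : ℝ) ^ r ≤ 6 * r * (Nat.centralBinom (3 * r) : ℝ) := by
    have h1 := Nat.four_pow_le_two_mul_self_mul_centralBinom (3 * r) (by omega)
    have h2 : (4 : ℕ) ^ (3 * r) = 64 ^ r := by
      rw [pow_mul]
      norm_num
    rw [h2] at h1
    have h3 : ((64 ^ r : ℕ) : ℝ) ≤ ((2 * (3 * r) * Nat.centralBinom (3 * r) : ℕ) : ℝ) := by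
      exact_mod_cast h1
    push_cast at h3
    linarith
  have hg : (0 : ℝ) < ((2 * r).factorial : ℝ) := by positivity
  have hZ1 : (((2 * r : ℕ) : ℝ) ^ (2 * r) * Real.exp (-((2 * r : ℕ) : ℝ))) /
      ((2 * r).factorial : ℝ) ≤ 1 := by
    rw [div_le_one hg]
    exact fact_lower (2 * r)
  have hZ2 : 1 / (Real.exp 1 * (2 * r)) ≤
      (((2 * r : ℕ) : ℝ) ^ (2 * r) * Real.exp (-((2 * r : ℕ) : ℝ))) /
      ((2 * r).factorial : ℝ) := by
    rw [div_le_div_iff₀ (by positivity) hg, one_mul]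
    have := fact_upper (2 * r) (by omega)
    have h2 : ((2 * r : ℕ) : ℝ) = 2 * r := by push_cast; rfl
    calc ((2 * r).factorial : ℝ) ≤ Real.exp 1 * ((2 * r : ℕ) : ℝ) *
          (((2 * r : ℕ) : ℝ) ^ (2 * r) * Real.exp (-((2 * r : ℕ) : ℝ))) := this
      _ = _ := by rw [h2]; ring
  have h128 : (128 : ℝ) ^ r = 64 ^ r * 2 ^ r := by
    rw [← mul_pow]
    norm_num
  rw [hkey]
  constructor
  · calc 3 * (r : ℝ) * (Nat.centralBinom (3 * r) : ℝ) / 128 ^ r *
        ((((2 * r : ℕ) : ℝ) ^ (2 * r) * Real.exp (-((2 * r : ℕ) : ℝ))) /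
        ((2 * r).factorial : ℝ))
        ≤ 3 * (r : ℝ) * 64 ^ r / 128 ^ r * 1 := by
          gcongr
      _ = 3 * r / 2 ^ r := by
          rw [h128, mul_one]
          field_simp
  · have he : Real.exp 1 ≤ 5 := by
      have := Real.exp_one_lt_d9
      linarith
    calc 1 / (20 * (r : ℝ) * 2 ^ r)
        ≤ (3 * (r : ℝ) * (64 ^ r / (6 * r)) / 128 ^ r) * (1 / (Real.exp 1 * (2 * r))) := by
          rw [h128]
          have h1 : (3 * (r : ℝ) * (64 ^ r / (6 * r)) / (64 ^ r * 2 ^ r)) = 1 / (2 * 2 ^ r) := by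
            field_simp
            norm_num
          rw [h1, div_mul_div_comm, one_mul]
          apply one_div_le_one_div_of_le (by positivity)
          have h2 : 2 * 2 ^ r * (Real.exp 1 * (2 * (r : ℝ))) = (4 * Real.exp 1) * (r * 2 ^ r) := by
            ring
          rw [h2, show 20 * (r : ℝ) * 2 ^ r = 20 * (r * 2 ^ r) by ring]
          apply mul_le_mul_of_nonneg_right _ (by positivity)
          linarith
      _ ≤ _ := by
          gcongr
          rw [div_le_iff₀ (by positivity)]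
          linarith
end Pool.Agent.Helper28.AF
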