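import Mathlib
import Pool.Agent.Helper26.AF.Goals2

/-!
Project AF (MP_af6c86_pr), packet PMC: the number of fixed point free involutions.
-/

namespace Pool.Agent.Helper28.AF

open Finset Pool.Agent.Helper26.AF

theorem isPair_iff {H : Type} [Fintype H] [DecidableEq H] (L : ℕ) (hL : Fintype.card H = 2 * L)
    (τ : Equiv.Perm H) : IsPair τ ↔ τ.cycleType = Multiset.replicate L 2 := by
  have hfact : Fact (Nat.Prime 2) := ⟨Nat.prime_two⟩
  have hsup : (∀ x, τ x ≠ x) ↔ #τ.support = Fintype.card H := by
    rw [Finset.card_eq_iff_eq_univ]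
    constructor
    · intro h
      ext x
      simp [h x]
    · intro h x
      have : x ∈ τ.support := by rw [h]; exact Finset.mem_univ x
      exact Equiv.Perm.mem_support.1 this
  have hpow : (∀ x, τ (τ x) = x) ↔ τ ^ 2 = 1 := by
    constructor
    · intro h
      ext x
      rw [pow_two, Equiv.Perm.mul_apply, h x, Equiv.Perm.one_apply]
    · intro h x
      have := Equiv.congr_fun h x
      rwa [pow_two, Equiv.Perm.mul_apply, Equiv.Perm.one_apply] at this
  constructor
  · intro h
    have h1 : τ ^ 2 = 1 := hpow.1 (fun x => (h x).1)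
    have h2 : #τ.support = Fintype.card H := hsup.1 (fun x => (h x).2)
    rw [Equiv.Perm.pow_prime_eq_one_iff] at h1
    have h3 : τ.cycleType = Multiset.replicate (Multiset.card τ.cycleType) 2 :=
      Multiset.eq_replicate_card.2 h1
    have h4 : τ.cycleType.sum = 2 * L := by rw [Equiv.Perm.sum_cycleType, h2, hL]
    have h5 : Multiset.card τ.cycleType = L := by
      rw [h3, Multiset.sum_replicate, smul_eq_mul] at h4
      omega
    rw [h3, h5]
  · intro h
    have h1 : τ ^ 2 = 1 := by
      rw [Equiv.Perm.pow_prime_eq_one_iff, h]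
      intro c hc
      exact Multiset.eq_of_mem_replicate hc
    have h2 : #τ.support = Fintype.card H := by
      rw [← Equiv.Perm.sum_cycleType, h, Multiset.sum_replicate, smul_eq_mul, hL, mul_comm]
    exact fun x => ⟨hpow.2 h1 x, hsup.2 h2 x⟩

theorem goalPMC : StmtPMC := by
  intro H _ L hL
  classical
  have h1 : Nat.card {τ : Equiv.Perm H // IsPair τ} =
      #({g | g.cycleType = Multiset.replicate L 2} : Finset (Equiv.Perm H)) := by
    rw [Nat.card_eq_fintype_card, Fintype.card_subtype]
    congr 1
    ext τ
    simp [isPair_iff L hL τ]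
  rw [h1, Equiv.Perm.card_of_cycleType, if_pos]
  · rw [hL, Multiset.sum_replicate, Multiset.prod_replicate, smul_eq_mul, mul_comm L 2,
      Nat.sub_self, Nat.factorial_zero, one_mul]
    rcases Nat.eq_zero_or_pos L with rfl | hpos
    · simp
    · have h2 : (Multiset.replicate L 2).toFinset = {2} := by
        rw [Multiset.toFinset_replicate, if_neg hpos.ne']
      rw [h2, Finset.prod_singleton, Multiset.count_replicate_self]
      obtain ⟨m, rfl⟩ : ∃ m, L = m + 1 := ⟨L - 1, by omega⟩
      have h3 : 2 * (m + 1) = (2 * (m + 1) - 1) + 1 := by omega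
      have h4 : (2 * (m + 1)).factorial =
          (2 ^ (m + 1) * (m + 1).factorial) * Nat.doubleFactorial (2 * (m + 1) - 1) := by
        conv_lhs => rw [h3, Nat.factorial_eq_mul_doubleFactorial, ← h3]
        rw [Nat.doubleFactorial_two_mul]
      rw [h4, Nat.mul_div_cancel_left _ (by positivity)]
  · refine ⟨?_, ?_⟩
    · rw [Multiset.sum_replicate, smul_eq_mul, hL, mul_comm]
    · intro a ha
      rw [Multiset.eq_of_mem_replicate ha]

end Pool.Agent.Helper28.AF
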